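import Mathlib
import Pool.Agent.Q1.BoundQuiver.Defs
import Pool.Agent.Q1.BoundQuiver.Lam
import Pool.Agent.Q1.BoundQuiver.Main

/-!
# MP_eb0abf: a vertex that never recurs in the syzygies of its simple module

The quiver has the vertices `1, 2, x` and the arrows `y : 1 → 1`, `α : 1 → 2`, `β : 2 → x`,
`γ : x → 1`; the admissible ideal is generated by `y²`, `βα`, `yγ`, `γβ`.
-/

namespace Pool.Agent.Results.MP_eb0abf_al.NoRecurrence

open Q1.BoundQuiver CategoryTheory

/-- **Disproof of Q1.** For every field `k` there are a finite strongly connected quiver, an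
algebra `Λ = kQ / I` with `I` admissible, a vertex `x` and the simple module `S` at `x` such that
`S` has infinite projective dimension and `e x` annihilates all syzygies `Ω^n S`, `n ≥ 1`, of the
minimal projective resolution of `S`. -/
theorem result (k : Type) [Field k] :
    ∃ (V : Type) (_ : Fintype V) (_ : Quiver.{0} V) (Λ : Type) (_ : Ring Λ) (_ : Algebra k Λ)
      (D : PathMap k V Λ) (x : V) (S : ModuleCat.{0} Λ),
      IsFiniteStronglyConnected V ∧ D.IsAdmissible ∧
      IsSimpleModule Λ S ∧ (∃ s : S, D.e x • s ≠ 0) ∧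
      projectiveDimension S = ⊤ ∧
      (∀ n : ℕ, ∃ K : ModuleCat.{0} Λ, IsSyzygy S n K) ∧
      ∀ n : ℕ, 1 ≤ n → ∀ K : ModuleCat.{0} Λ, IsSyzygy S n K → ∀ z : K, D.e x • z = 0 :=
  ⟨V, inferInstance, inferInstance, Lam k, inferInstance, inferInstance, Lam.pres k, V.x, Lam.S k,
    Lam.stronglyConnected, Lam.admissible, Lam.simple_SX,
    ⟨⟨1⟩, fun h => by
      have h' := congrArg Lam.SX.val h
      simp [Lam.pres, Lam.idem] at h'⟩,
    Lam.pd_top, Lam.syzygy_exists, Lam.vanish⟩

end Pool.Agent.Results.MP_eb0abf_al.NoRecurrence
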